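import Mathlib
import Pool.Agent.V8H97.Inertia

/-!
# MP_f4ab27_co: families of vectors whose differences cover {-1,1}

Upper bound `(1/4 + o(1)) 2^q` for `{1,-1}`-covering families of integer vectors (also when the
condition is only required modulo 4), with exact values for `q ≤ 6`.
-/

open Finset
open Pool.Agent.V8H97.Inertia

namespace Pool.Agent.Results.MP_f4ab27_co.PlusMinusQuarter

/-- the `{1,-1}`-covering families -/
def PMCovering {q : ℕ} (F : Set (Fin q → ℤ)) : Prop :=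
  ∀ u ∈ F, ∀ v ∈ F, u ≠ v → (∃ j, u j - v j = 1) ∧ (∃ j, u j - v j = -1)

/-- the analogue modulo 4: families in `(ℤ/4)^q` such that 1 and -1 occur in every difference of
two distinct members -/
def PMCovering4 {q : ℕ} (G : Set (Fin q → ZMod 4)) : Prop :=
  ∀ u ∈ G, ∀ v ∈ G, u ≠ v → (∃ j, u j - v j = 1) ∧ (∃ j, u j - v j = -1)

lemma four_zero : (4 : ZMod 4) = 0 := by decide

/-- closed forms, q = 2n+2 -/
lemma cnt_even (n : ℕ) :
    cnt 4 (2 * n + 2) (n + 1) = 4 ^ n + 2 ^ n ∧ cnt 4 (2 * n + 2) (n + 2) = 4 ^ n ∧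
    cnt 4 (2 * n + 2) (n + 3) + 2 ^ n = 4 ^ n ∧ cnt 4 (2 * n + 2) n = 4 ^ n := by
  induction n with
  | zero => decide
  | succ n ih =>
    obtain ⟨h1, h2, h3, h0⟩ := ih
    have e : 2 * (n + 1) + 2 = (2 * n + 2) + 2 := by ring
    have c0 : (n : ZMod 4) + 4 = n := by rw [four_zero, add_zero]
    refine ⟨?_, ?_, ?_, ?_⟩
    · rw [e, cnt_step]
      have a1 : (((n + 1 : ℕ) : ZMod 4) + 1) = n + 2 := by push_cast; ring
      have a2 : ((n : ZMod 4) + 2 - 1) = n + 1 := by ring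
      have a3 : ((n : ZMod 4) + 2 - 2) = n := by ring
      rw [a1, a2, a3, h2, h1, h0]
      ring
    · rw [e, cnt_step]
      have a1 : (((n + 1 : ℕ) : ZMod 4) + 2) = n + 3 := by push_cast; ring
      have a2 : ((n : ZMod 4) + 3 - 1) = n + 2 := by ring
      have a3 : ((n : ZMod 4) + 3 - 2) = n + 1 := by ring
      rw [a1, a2, a3, h2, h1, pow_succ]
      omega
    · rw [e, cnt_step]
      have a1 : (((n + 1 : ℕ) : ZMod 4) + 3) = n := by
        push_cast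
        linear_combination c0
      have a2 : ((n : ZMod 4) - 1) = n + 3 := by linear_combination -c0
      have a3 : ((n : ZMod 4) - 2) = n + 2 := by linear_combination -c0
      rw [a1, a2, a3, h2, h0, pow_succ, pow_succ]
      omega
    · rw [e, cnt_step]
      have a1 : (((n + 1 : ℕ) : ZMod 4)) = n + 1 := by push_cast; ring
      have a2 : ((n : ZMod 4) + 1 - 1) = n := by ring
      have a3 : ((n : ZMod 4) + 1 - 2) = n + 3 := by linear_combination -c0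
      rw [a1, a2, a3, h1, h0, pow_succ]
      omega

/-- closed forms, q = 2n+3 -/
lemma cnt_odd (n : ℕ) :
    cnt 4 (2 * n + 3) (n + 1) = 2 * 4 ^ n + 2 ^ n ∧
    cnt 4 (2 * n + 3) (n + 3) + 2 ^ n = 2 * 4 ^ n := by
  obtain ⟨h1, h2, h3, h0⟩ := cnt_even n
  constructor
  · rw [cnt]
    have a2 : ((n : ZMod 4) + 1 - 1) = n := by ring
    rw [a2, h1, h0]
    ring
  · rw [cnt]
    have a2 : ((n : ZMod 4) + 3 - 1) = n + 2 := by ring
    rw [a2, h2]
    omega

lemma I_zpow_mod (w : ℤ) : Complex.I ^ w = Complex.I ^ (w % 4) := by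
  refine zpow_emod _ Complex.I_ne_zero 4 ?_ w
  have := Complex.I_pow_four
  exact_mod_cast this

lemma I_one {w : ℤ} (h : w % 4 = 1) : Complex.I ^ w = Complex.I := by
  rw [I_zpow_mod, h, zpow_one]

lemma I_three {w : ℤ} (h : w % 4 = 3) : Complex.I ^ w = -Complex.I := by
  rw [I_zpow_mod, h]
  have : Complex.I ^ (3 : ℤ) = Complex.I ^ 3 := by norm_cast
  rw [this, Complex.I_pow_three]

lemma I_conj : (starRingEnd ℂ) Complex.I = Complex.I⁻¹ := by
  rw [Complex.conj_I, Complex.inv_I]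

/-- the key identity: classes r and r+2 have equal sums -/
lemma key {q : ℕ} (w : Fin q → ℤ) (h1 : ∃ j, w j % 4 = 1) (h3 : ∃ j, w j % 4 = 3)
    (r : ZMod 4) : N 4 Complex.I w r = N 4 Complex.I w (r + 2) := by
  obtain ⟨j, hj⟩ := h1
  obtain ⟨k, hk⟩ := h3
  have i2 := Complex.I_sq
  have i3 := Complex.I_pow_three
  have e1 := gen_zero 4 Complex.I w Complex.I Complex.I_pow_four j
    (by rw [I_one hj, Complex.I_mul_I]; ring)
  have e3 := gen_zero 4 Complex.I w (-Complex.I)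
    (by rw [neg_pow]; norm_num [Complex.I_pow_four]) k
    (by rw [I_three hk, neg_mul_neg, Complex.I_mul_I]; ring)
  have four : ∀ f : ZMod 4 → ℂ, ∑ r, f r = f 0 + f 1 + f 2 + f 3 := fun f => Fin.sum_univ_four f
  have v0 : (0 : ZMod 4).val = 0 := rfl
  have v1 : (1 : ZMod 4).val = 1 := rfl
  have v2 : (2 : ZMod 4).val = 2 := rfl
  have v3 : (3 : ZMod 4).val = 3 := rfl
  have m2 : (-Complex.I) ^ 2 = -1 := by rw [neg_pow]; norm_num [Complex.I_sq]
  have m3 : (-Complex.I) ^ 3 = Complex.I := by rw [neg_pow]; norm_num [Complex.I_pow_three]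
  rw [four, v0, v1, v2, v3, pow_zero, pow_one, i2, i3] at e1
  rw [four, v0, v1, v2, v3, pow_zero, pow_one, m2, m3] at e3
  have a : N 4 Complex.I w 0 = N 4 Complex.I w 2 := by
    linear_combination (1/2 : ℂ) * e1 + (1/2 : ℂ) * e3
  have b : N 4 Complex.I w 1 = N 4 Complex.I w 3 := by
    have : Complex.I * (N 4 Complex.I w 1 - N 4 Complex.I w 3) = 0 := by
      linear_combination (1/2 : ℂ) * e1 - (1/2 : ℂ) * e3
    rcases mul_eq_zero.1 this with h | h
    · exact absurd h Complex.I_ne_zero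
    · exact sub_eq_zero.1 h
  have hr : ∀ r : ZMod 4, r = 0 ∨ r = 1 ∨ r = 2 ∨ r = 3 := by decide
  rcases hr r with h | h | h | h <;> subst h
  · exact a
  · exact b
  · exact a.symm
  · exact b.symm

/-- the class used in the bound -/
def B (q : ℕ) : ℕ := cnt 4 q ((q / 2 : ℕ) : ZMod 4)

lemma B_even (m : ℕ) (hm : 1 ≤ m) : B (2 * m) = 2 ^ (2 * m - 2) + 2 ^ (m - 1) := by
  obtain ⟨n, rfl⟩ : ∃ n, m = n + 1 := ⟨m - 1, by omega⟩
  have h : 2 * (n + 1) / 2 = n + 1 := by omega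
  have e : 2 * (n + 1) = 2 * n + 2 := by ring
  have e1 : 2 * (n + 1) - 2 = 2 * n := by omega
  have e2 : n + 1 - 1 = n := by omega
  rw [B, h, e1, e2, e, pow_mul]
  push_cast
  rw [(cnt_even n).1]

lemma B_odd (m : ℕ) (hm : 1 ≤ m) : B (2 * m + 1) = 2 ^ (2 * m - 1) + 2 ^ (m - 1) := by
  obtain ⟨n, rfl⟩ : ∃ n, m = n + 1 := ⟨m - 1, by omega⟩
  have h : (2 * (n + 1) + 1) / 2 = n + 1 := by omega
  have e : 2 * (n + 1) + 1 = 2 * n + 3 := by ring
  have e1 : 2 * (n + 1) - 1 = 2 * n + 1 := by omega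
  have e2 : n + 1 - 1 = n := by omega
  rw [B, h, e1, e2, e, pow_succ, pow_mul]
  push_cast
  rw [(cnt_odd n).1]
  norm_num
  ring

lemma gap (q : ℕ) : cnt 4 q (((q / 2 : ℕ) : ZMod 4) + 2) < cnt 4 q ((q / 2 : ℕ) : ZMod 4) := by
  rcases Nat.even_or_odd' q with ⟨m, hm | hm⟩
  · subst hm
    rcases Nat.eq_zero_or_pos m with h0 | h0
    · subst h0
      decide
    obtain ⟨n, rfl⟩ : ∃ n, m = n + 1 := ⟨m - 1, by omega⟩
    have h : 2 * (n + 1) / 2 = n + 1 := by omega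
    have e : 2 * (n + 1) = 2 * n + 2 := by ring
    rw [h, e]
    obtain ⟨h1, h2, h3, h0⟩ := cnt_even n
    have a : ((n + 1 : ℕ) : ZMod 4) + 2 = n + 3 := by push_cast; ring
    have b : ((n + 1 : ℕ) : ZMod 4) = n + 1 := by push_cast; ring
    have : 0 < 2 ^ n := by positivity
    rw [a, b]
    omega
  · subst hm
    rcases Nat.eq_zero_or_pos m with h0 | h0
    · subst h0
      decide
    obtain ⟨n, rfl⟩ : ∃ n, m = n + 1 := ⟨m - 1, by omega⟩
    have h : (2 * (n + 1) + 1) / 2 = n + 1 := by omega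
    have e : 2 * (n + 1) + 1 = 2 * n + 3 := by ring
    rw [h, e]
    obtain ⟨h1, h3⟩ := cnt_odd n
    have a : ((n + 1 : ℕ) : ZMod 4) + 2 = n + 3 := by push_cast; ring
    have b : ((n + 1 : ℕ) : ZMod 4) = n + 1 := by push_cast; ring
    have : 0 < 2 ^ n := by positivity
    rw [a, b]
    omega

/-- the bound for integer families with the condition modulo 4 -/
lemma upper_int (q : ℕ) (F : Finset (Fin q → ℤ))
    (h : ∀ u ∈ F, ∀ v ∈ F, u ≠ v → (∃ j, (u j - v j) % 4 = 1) ∧ (∃ j, (u j - v j) % 4 = 3)) :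
    F.card ≤ B q := by
  refine bound 4 Complex.I Complex.I_ne_zero I_conj F _ _ (gap q) ?_
  intro u hu v hv huv
  obtain ⟨h1, h3⟩ := h u hu v hv huv
  exact key _ h1 h3 _

/-- lift of a vector over `ℤ/4` -/
def lft {q : ℕ} (u : Fin q → ZMod 4) : Fin q → ℤ := fun j => ((u j).val : ℤ)

lemma lft_inj {q : ℕ} : Function.Injective (lft (q := q)) := by
  intro u v h
  funext j
  have h1 := congrFun h j
  simp only [lft] at h1
  have h2 : (u j).val = (v j).val := by exact_mod_cast h1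
  exact ZMod.val_injective 4 h2

lemma lft_sub {q : ℕ} (u v : Fin q → ZMod 4) (j : Fin q) (a : ℤ)
    (h : u j - v j = ((a : ℤ) : ZMod 4)) : (lft u j - lft v j) % 4 = a % 4 := by
  have h1 : ((lft u j - lft v j : ℤ) : ZMod 4) = ((a : ℤ) : ZMod 4) := by
    rw [← h]
    simp only [lft]
    push_cast
    rw [ZMod.natCast_zmod_val, ZMod.natCast_zmod_val]
  exact (ZMod.intCast_eq_intCast_iff' _ _ 4).1 h1

lemma upper_z4 (q : ℕ) (G : Set (Fin q → ZMod 4)) (hG : PMCovering4 G) :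
    G.encard ≤ (B q : ℕ) := by
  refine encard_le_of G _ fun T hT => ?_
  have hc : (T.image lft).card = T.card := Finset.card_image_of_injective T lft_inj
  rw [← hc]
  refine upper_int q _ ?_
  intro u hu v hv huv
  obtain ⟨u', hu', rfl⟩ := Finset.mem_image.1 hu
  obtain ⟨v', hv', rfl⟩ := Finset.mem_image.1 hv
  have hne : u' ≠ v' := fun e => huv (by rw [e])
  obtain ⟨⟨j1, h1⟩, ⟨j3, h3⟩⟩ := hG u' (hT hu') v' (hT hv') hne
  exact ⟨⟨j1, lft_sub u' v' j1 1 (by rw [h1]; norm_num)⟩,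
    ⟨j3, lft_sub u' v' j3 3 (by rw [h3]; decide)⟩⟩

/-- reduction mod 4 -/
def red {q : ℕ} (u : Fin q → ℤ) : Fin q → ZMod 4 := fun j => (u j : ZMod 4)

lemma red_inj {q : ℕ} (F : Set (Fin q → ℤ)) (hF : PMCovering F) : Set.InjOn red F := by
  intro u hu v hv h
  by_contra hne
  obtain ⟨j, hj⟩ := (hF u hu v hv hne).1
  have h1 := congrFun h j
  simp only [red] at h1
  have h2 : ((u j - v j : ℤ) : ZMod 4) = 0 := by
    push_cast
    rw [h1, sub_self]
  rw [hj] at h2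
  exact absurd h2 (by decide)

lemma red_cov {q : ℕ} (F : Set (Fin q → ℤ)) (hF : PMCovering F) : PMCovering4 (red '' F) := by
  rintro _ ⟨u, hu, rfl⟩ _ ⟨v, hv, rfl⟩ hne
  have huv : u ≠ v := fun e => hne (by rw [e])
  obtain ⟨⟨j, hj⟩, ⟨k, hk⟩⟩ := hF u hu v hv huv
  refine ⟨⟨j, ?_⟩, ⟨k, ?_⟩⟩
  · simp only [red]
    have : ((u j - v j : ℤ) : ZMod 4) = ((1 : ℤ) : ZMod 4) := by rw [hj]
    push_cast at this
    exact this
  · simp only [red]
    have : ((u k - v k : ℤ) : ZMod 4) = ((-1 : ℤ) : ZMod 4) := by rw [hk]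
    push_cast at this
    exact this

lemma red_encard {q : ℕ} (F : Set (Fin q → ℤ)) (hF : PMCovering F) :
    (red '' F).encard = F.encard := (red_inj F hF).encard_image

lemma upper_z (q : ℕ) (F : Set (Fin q → ℤ)) (hF : PMCovering F) :
    F.encard ≤ (B q : ℕ) := by
  rw [← red_encard F hF]
  exact upper_z4 q _ (red_cov F hF)

lemma B_small (q : ℕ) (h6 : q ≤ 6) : B q = q.choose (q / 2) := by
  interval_cases q <;> decide

lemma B_le (q : ℕ) : 4 * B q ≤ 2 ^ q + 4 * 2 ^ (q / 2) := by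
  rcases Nat.even_or_odd' q with ⟨m, hm | hm⟩
  · subst hm
    have e : 2 * m / 2 = m := by omega
    rcases Nat.eq_zero_or_pos m with h0 | h0
    · subst h0
      decide
    rw [B_even m h0, e]
    obtain ⟨n, rfl⟩ : ∃ n, m = n + 1 := ⟨m - 1, by omega⟩
    have e1 : 2 * (n + 1) - 2 = 2 * n := by omega
    have e2 : n + 1 - 1 = n := by omega
    have e3 : 2 * (n + 1) = 2 * n + 2 := by ring
    rw [e1, e2, e3, pow_succ, pow_succ, pow_succ 2 n]
    omega
  · subst hm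
    have e : (2 * m + 1) / 2 = m := by omega
    rcases Nat.eq_zero_or_pos m with h0 | h0
    · subst h0
      decide
    rw [B_odd m h0, e]
    obtain ⟨n, rfl⟩ : ∃ n, m = n + 1 := ⟨m - 1, by omega⟩
    have e1 : 2 * (n + 1) - 1 = 2 * n + 1 := by omega
    have e2 : n + 1 - 1 = n := by omega
    have e3 : 2 * (n + 1) + 1 = 2 * n + 3 := by ring
    rw [e1, e2, e3, pow_succ 2 (2 * n + 2), pow_succ 2 (2 * n + 1), pow_succ 2 (2 * n),
      pow_succ 2 n]
    omega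

lemma B_asymp (ε : ℝ) (hε : 0 < ε) : ∃ Q : ℕ, ∀ q ≥ Q,
    (B q : ℝ) ≤ (1 / 4 + ε) * 2 ^ q := by
  obtain ⟨n, hn⟩ := exists_pow_lt_of_lt_one hε (show (1 / 2 : ℝ) < 1 by norm_num)
  refine ⟨2 * n, fun q hq => ?_⟩
  have h1 : (4 : ℝ) * B q ≤ 2 ^ q + 4 * 2 ^ (q / 2) := by
    exact_mod_cast B_le q
  have h2 : (2 : ℝ) ^ (q / 2) ≤ ε * 2 ^ q := by
    have e1 : (2 : ℝ) ^ (q / 2) = (1 / 2) ^ (q / 2) * 4 ^ (q / 2) := by
      rw [← mul_pow]; norm_num
    have e2 : (4 : ℝ) ^ (q / 2) ≤ 2 ^ q := by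
      have : (4 : ℝ) ^ (q / 2) = 2 ^ (2 * (q / 2)) := by rw [pow_mul]; norm_num
      rw [this]
      exact pow_le_pow_right₀ (by norm_num) (by omega)
    have e3 : (1 / 2 : ℝ) ^ (q / 2) ≤ (1 / 2) ^ n :=
      pow_le_pow_of_le_one (by norm_num) (by norm_num) (by omega)
    rw [e1]
    exact mul_le_mul (e3.trans hn.le) e2 (by positivity) hε.le
  nlinarith [h1, h2, pow_pos (show (0 : ℝ) < 2 by norm_num) q]

/-- **Main theorem.** -/
theorem result :
    -- (1) upper bounds modulo 4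
    (∀ m : ℕ, 1 ≤ m → ∀ G : Set (Fin (2 * m) → ZMod 4), PMCovering4 G →
      G.encard ≤ (2 ^ (2 * m - 2) + 2 ^ (m - 1) : ℕ)) ∧
    (∀ m : ℕ, 1 ≤ m → ∀ G : Set (Fin (2 * m + 1) → ZMod 4), PMCovering4 G →
      G.encard ≤ (2 ^ (2 * m - 1) + 2 ^ (m - 1) : ℕ)) ∧
    -- (2) the same upper bounds for families of integer vectors
    (∀ m : ℕ, 1 ≤ m → ∀ F : Set (Fin (2 * m) → ℤ), PMCovering F →
      F.encard ≤ (2 ^ (2 * m - 2) + 2 ^ (m - 1) : ℕ)) ∧
    (∀ m : ℕ, 1 ≤ m → ∀ F : Set (Fin (2 * m + 1) → ℤ), PMCovering F →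
      F.encard ≤ (2 ^ (2 * m - 1) + 2 ^ (m - 1) : ℕ)) ∧
    -- (3) asymptotically at most `(1/4 + o(1)) 2^q`
    (∀ ε : ℝ, 0 < ε → ∃ Q : ℕ, ∀ q ≥ Q,
      (∀ G : Set (Fin q → ZMod 4), PMCovering4 G →
        G.Finite ∧ (G.ncard : ℝ) ≤ (1 / 4 + ε) * 2 ^ q) ∧
      (∀ F : Set (Fin q → ℤ), PMCovering F →
        F.Finite ∧ (F.ncard : ℝ) ≤ (1 / 4 + ε) * 2 ^ q)) ∧
    -- (4) exact values for `q ≤ 6`
    (∀ q : ℕ, q ≤ 6 →
      IsGreatest {n : ℕ∞ | ∃ F : Set (Fin q → ℤ), PMCovering F ∧ F.encard = n}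
        (q.choose (q / 2) : ℕ) ∧
      IsGreatest {n : ℕ∞ | ∃ G : Set (Fin q → ZMod 4), PMCovering4 G ∧ G.encard = n}
        (q.choose (q / 2) : ℕ)) := by
  have hfin : ∀ {α : Type} (G : Set α) (b : ℕ) (x : ℝ), G.encard ≤ (b : ℕ) → (b : ℝ) ≤ x →
      G.Finite ∧ (G.ncard : ℝ) ≤ x := by
    intro α G b x h1 h2
    have hf : G.Finite := Set.finite_of_encard_le_coe h1
    refine ⟨hf, ?_⟩
    rw [← hf.cast_ncard_eq] at h1
    have h3 : G.ncard ≤ b := by exact_mod_cast h1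
    have h4 : (G.ncard : ℝ) ≤ b := by exact_mod_cast h3
    exact h4.trans h2
  refine ⟨?_, ?_, ?_, ?_, ?_, ?_⟩
  · intro m hm G hG
    rw [← B_even m hm]
    exact upper_z4 _ G hG
  · intro m hm G hG
    rw [← B_odd m hm]
    exact upper_z4 _ G hG
  · intro m hm F hF
    rw [← B_even m hm]
    exact upper_z _ F hF
  · intro m hm F hF
    rw [← B_odd m hm]
    exact upper_z _ F hF
  · intro ε hε
    obtain ⟨Q, hQ⟩ := B_asymp ε hε
    refine ⟨Q, fun q hq => ⟨fun G hG => ?_, fun F hF => ?_⟩⟩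
    · exact hfin G _ _ (upper_z4 q G hG) (hQ q hq)
    · exact hfin F _ _ (upper_z q F hF) (hQ q hq)
  · intro q h6
    have hcov : PMCovering (layer q (q / 2)) := layer_pm q _
    refine ⟨⟨⟨_, hcov, layer_card q _⟩, ?_⟩,
      ⟨⟨_, red_cov _ hcov, (red_encard _ hcov).trans (layer_card q _)⟩, ?_⟩⟩
    · rintro n ⟨F, hF, rfl⟩
      rw [← B_small q h6]
      exact upper_z q F hF
    · rintro n ⟨G, hG, rfl⟩
      rw [← B_small q h6]
      exact upper_z4 q G hG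

end Pool.Agent.Results.MP_f4ab27_co.PlusMinusQuarter
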