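import Mathlib
import Pool.Agent.V8H97.Inertia

/-!
# MP_f4ab27_co: families of vectors whose differences cover {-1,0,1}

Upper bound `(1/6 + o(1)) 2^q` for `R(3,q)`, hence for `F(q)`, and the exact values for `q ≤ 9`.
-/

open Finset
open Pool.Agent.V8H97.Inertia

namespace Pool.Agent.Results.MP_f4ab27_co.SixthBound

/-- the families counted by `R(3,q)`: every element of `ℤ/3` occurs in every difference of two
distinct members -/
def Z3Covering {q : ℕ} (G : Set (Fin q → ZMod 3)) : Prop :=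
  ∀ u ∈ G, ∀ v ∈ G, u ≠ v → ∀ a : ZMod 3, ∃ j, u j - v j = a

/-- the `{-1,0,1}`-covering families counted by `F(q)` -/
def Covering {q : ℕ} (F : Set (Fin q → ℤ)) : Prop :=
  ∀ u ∈ F, ∀ v ∈ F, u ≠ v → ∀ a ∈ ({-1, 0, 1} : Set ℤ), ∃ j, u j - v j = a

/-! ### closed forms for the class sizes mod 6 -/

lemma six_zero : (6 : ZMod 6) = 0 := by decide

/-- closed forms, q = 2n+1 -/
lemma cnt_odd (n : ℕ) :
    6 * cnt 6 (2 * n + 1) n = 2 * 4 ^ n + 3 * 3 ^ n + 1 ∧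
    6 * cnt 6 (2 * n + 1) (n + 1) = 2 * 4 ^ n + 3 * 3 ^ n + 1 ∧
    6 * cnt 6 (2 * n + 1) (n + 2) + 2 = 2 * 4 ^ n ∧
    6 * cnt 6 (2 * n + 1) (n + 3) + 3 * 3 ^ n = 2 * 4 ^ n + 1 ∧
    6 * cnt 6 (2 * n + 1) (n + 4) + 3 * 3 ^ n = 2 * 4 ^ n + 1 ∧
    6 * cnt 6 (2 * n + 1) (n + 5) + 2 = 2 * 4 ^ n := by
  induction n with
  | zero => decide
  | succ n ih =>
    obtain ⟨h0, h1, h2, h3, h4, h5⟩ := ih
    have e : 2 * (n + 1) + 1 = (2 * n + 1) + 2 := by ring
    have c0 : (n : ZMod 6) + 6 = n := by rw [six_zero, add_zero]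
    have b1 : ((n : ZMod 6) - 1) = n + 5 := by linear_combination -c0
    rw [e]
    simp only [cnt_step]
    refine ⟨?_, ?_, ?_, ?_, ?_, ?_⟩
    · have a0 : ((n + 1 : ℕ) : ZMod 6) = n + 1 := by push_cast; ring
      have a1 : (n : ZMod 6) + 1 - 1 = n := by ring
      have a2 : (n : ZMod 6) + 1 - 2 = n + 5 := by linear_combination -c0
      rw [a0, a1, a2, pow_succ, pow_succ]
      omega
    · have a0 : ((n + 1 : ℕ) : ZMod 6) + 1 = n + 2 := by push_cast; ring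
      have a1 : (n : ZMod 6) + 2 - 1 = n + 1 := by ring
      have a2 : (n : ZMod 6) + 2 - 2 = n := by ring
      rw [a0, a1, a2, pow_succ, pow_succ]
      omega
    · have a0 : ((n + 1 : ℕ) : ZMod 6) + 2 = n + 3 := by push_cast; ring
      have a1 : (n : ZMod 6) + 3 - 1 = n + 2 := by ring
      have a2 : (n : ZMod 6) + 3 - 2 = n + 1 := by ring
      rw [a0, a1, a2, pow_succ]
      omega
    · have a0 : ((n + 1 : ℕ) : ZMod 6) + 3 = n + 4 := by push_cast; ring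
      have a1 : (n : ZMod 6) + 4 - 1 = n + 3 := by ring
      have a2 : (n : ZMod 6) + 4 - 2 = n + 2 := by ring
      rw [a0, a1, a2, pow_succ, pow_succ]
      omega
    · have a0 : ((n + 1 : ℕ) : ZMod 6) + 4 = n + 5 := by push_cast; ring
      have a1 : (n : ZMod 6) + 5 - 1 = n + 4 := by ring
      have a2 : (n : ZMod 6) + 5 - 2 = n + 3 := by ring
      rw [a0, a1, a2, pow_succ, pow_succ]
      omega
    · have a0 : ((n + 1 : ℕ) : ZMod 6) + 5 = n := by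
        push_cast
        linear_combination c0
      have a2 : (n : ZMod 6) - 2 = n + 4 := by linear_combination -c0
      rw [a0, b1, a2, pow_succ]
      omega

/-- closed forms, q = 2n+2 -/
lemma cnt_even (n : ℕ) :
    6 * cnt 6 (2 * n + 2) n + 1 = 4 * 4 ^ n + 3 * 3 ^ n ∧
    6 * cnt 6 (2 * n + 2) (n + 3) + 3 * 3 ^ n + 1 = 4 * 4 ^ n := by
  obtain ⟨h0, h1, h2, h3, h4, h5⟩ := cnt_odd n
  have c0 : (n : ZMod 6) + 6 = n := by rw [six_zero, add_zero]
  have b1 : ((n : ZMod 6) - 1) = n + 5 := by linear_combination -c0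
  have b2 : ((n : ZMod 6) + 3 - 1) = n + 2 := by ring
  constructor
  · rw [cnt, b1]
    omega
  · rw [cnt, b2]
    omega

/-- the class used in the bound -/
def B (q : ℕ) : ℕ := cnt 6 q (((q - 1) / 2 : ℕ) : ZMod 6)

lemma B_odd (m : ℕ) : 6 * B (2 * m + 1) = 2 ^ (2 * m + 1) + 3 ^ (m + 1) + 1 := by
  have h : (2 * m + 1 - 1) / 2 = m := by omega
  rw [B, h, (cnt_odd m).1, pow_succ, pow_mul, pow_succ]
  ring

lemma B_even (m : ℕ) (hm : 1 ≤ m) : 6 * B (2 * m) + 1 = 2 ^ (2 * m) + 3 ^ m := by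
  obtain ⟨n, rfl⟩ : ∃ n, m = n + 1 := ⟨m - 1, by omega⟩
  have h : (2 * (n + 1) - 1) / 2 = n := by omega
  have e : 2 * (n + 1) = 2 * n + 2 := by ring
  rw [B, h, e, (cnt_even n).1, pow_add, pow_mul, pow_succ 3 n]
  ring

lemma gap (q : ℕ) (hq : 1 ≤ q) :
    cnt 6 q ((((q - 1) / 2 : ℕ) : ZMod 6) + 3) < cnt 6 q (((q - 1) / 2 : ℕ) : ZMod 6) := by
  rcases Nat.even_or_odd' q with ⟨m, hm | hm⟩
  · obtain ⟨n, rfl⟩ : ∃ n, m = n + 1 := ⟨m - 1, by omega⟩
    subst hm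
    have h : (2 * (n + 1) - 1) / 2 = n := by omega
    have e : 2 * (n + 1) = 2 * n + 2 := by ring
    rw [h, e]
    obtain ⟨h0, h3⟩ := cnt_even n
    have : 0 < 3 ^ n := by positivity
    omega
  · subst hm
    have h : (2 * m + 1 - 1) / 2 = m := by omega
    rw [h]
    obtain ⟨h0, h1, h2, h3, h4, h5⟩ := cnt_odd m
    have : 0 < 3 ^ m := by positivity
    omega

/-! ### the cube root of unity -/

/-- a primitive cube root of unity -/
noncomputable def om : ℂ := ⟨-1 / 2, Real.sqrt 3 / 2⟩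

lemma om_sq : om ^ 2 + om + 1 = 0 := by
  have h3 : Real.sqrt 3 * Real.sqrt 3 = 3 := Real.mul_self_sqrt (by norm_num)
  rw [om, sq]
  apply Complex.ext
  · simp only [Complex.add_re, Complex.mul_re, Complex.one_re, Complex.zero_re]
    nlinarith
  · simp only [Complex.add_im, Complex.mul_im, Complex.one_im, Complex.zero_im]
    ring

lemma om_cube : om ^ 3 = 1 := by
  linear_combination (om - 1) * om_sq

lemma om_ne : om ≠ 0 := by
  intro h
  have := om_cube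
  rw [h] at this
  norm_num at this

lemma om_conj : (starRingEnd ℂ) om = om⁻¹ := by
  have h3 : Real.sqrt 3 * Real.sqrt 3 = 3 := Real.mul_self_sqrt (by norm_num)
  have h : (starRingEnd ℂ) om * om = 1 := by
    rw [om]
    apply Complex.ext
    · simp only [Complex.mul_re, Complex.conj_re, Complex.conj_im, Complex.one_re]
      nlinarith
    · simp only [Complex.mul_im, Complex.conj_re, Complex.conj_im, Complex.one_im]
      ring
  exact eq_inv_of_mul_eq_one_left h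

lemma om_zpow (w : ℤ) : om ^ w = om ^ (w % 3) := by
  refine zpow_emod om om_ne 3 ?_ w
  have := om_cube
  exact_mod_cast this

/-- the key identity: classes r and r+3 have equal sums -/
lemma key {q : ℕ} (w : Fin q → ℤ) (h0 : ∃ j, w j % 3 = 0) (h1 : ∃ j, w j % 3 = 1)
    (h2 : ∃ j, w j % 3 = 2) (r : ZMod 6) : N 6 om w r = N 6 om w (r + 3) := by
  obtain ⟨j0, h0⟩ := h0
  obtain ⟨j1, h1⟩ := h1
  obtain ⟨j2, h2⟩ := h2
  have hc := om_cube
  have hs := om_sq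
  have six : ∀ f : ZMod 6 → ℂ, ∑ r, f r = f 0 + f 1 + f 2 + f 3 + f 4 + f 5 :=
    fun f => Fin.sum_univ_six f
  have v0 : (0 : ZMod 6).val = 0 := rfl
  have v1 : (1 : ZMod 6).val = 1 := rfl
  have v2 : (2 : ZMod 6).val = 2 := rfl
  have v3 : (3 : ZMod 6).val = 3 := rfl
  have v4 : (4 : ZMod 6).val = 4 := rfl
  have v5 : (5 : ZMod 6).val = 5 := rfl
  have E0 := gen_zero 6 om w (-1) (by norm_num) j0 (by rw [om_zpow, h0]; norm_num)
  have E1 := gen_zero 6 om w (-om ^ 2) (by linear_combination (om ^ 9 + om ^ 6 + om ^ 3 + 1) * hc)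
    j1 (by rw [om_zpow, h1, zpow_one]; linear_combination -hc)
  have E2 := gen_zero 6 om w (-om) (by linear_combination (om ^ 3 + 1) * hc)
    j2 (by
      have : om ^ (2 : ℤ) = om ^ 2 := by norm_cast
      rw [om_zpow, h2, this]; linear_combination -hc)
  rw [six, v0, v1, v2, v3, v4, v5] at E0 E1 E2
  -- reduce powers of om
  have D0 : N 6 om w 0 - N 6 om w 3 - (N 6 om w 1 - N 6 om w 4) + (N 6 om w 2 - N 6 om w 5) = 0 := by
    linear_combination E0
  have D1 : N 6 om w 0 - N 6 om w 3 - om ^ 2 * (N 6 om w 1 - N 6 om w 4)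
      + om * (N 6 om w 2 - N 6 om w 5) = 0 := by
    linear_combination E1 + (om ^ 3 + 1) * hc * N 6 om w 3
      - (om ^ 5 + om ^ 2) * hc * N 6 om w 4
      + (om ^ 7 + om ^ 4 + om) * hc * N 6 om w 5 - om * hc * N 6 om w 2
  have D2 : N 6 om w 0 - N 6 om w 3 - om * (N 6 om w 1 - N 6 om w 4)
      + om ^ 2 * (N 6 om w 2 - N 6 om w 5) = 0 := by
    linear_combination E2 + hc * N 6 om w 3 - om * hc * N 6 om w 4 + om ^ 2 * hc * N 6 om w 5
  have A0 : N 6 om w 0 = N 6 om w 3 := by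
    linear_combination (1 / 3 : ℂ) * (D0 + D1 + D2)
      + (1 / 3 : ℂ) * hs * ((N 6 om w 1 - N 6 om w 4) - (N 6 om w 2 - N 6 om w 5))
  have A1 : N 6 om w 1 = N 6 om w 4 := by
    linear_combination (-1 / 3 : ℂ) * (D0 + om * D1 + om ^ 2 * D2)
      + (1 / 3 : ℂ) * hs * (N 6 om w 0 - N 6 om w 3)
      - (2 / 3 : ℂ) * hc * (N 6 om w 1 - N 6 om w 4)
      + (1 / 3 : ℂ) * (om ^ 2 - om + 1) * hs * (N 6 om w 2 - N 6 om w 5)
  have A2 : N 6 om w 2 = N 6 om w 5 := by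
    linear_combination (1 / 3 : ℂ) * (D0 + om ^ 2 * D1 + om * D2)
      - (1 / 3 : ℂ) * hs * (N 6 om w 0 - N 6 om w 3)
      - (2 / 3 : ℂ) * hc * (N 6 om w 2 - N 6 om w 5)
      + (1 / 3 : ℂ) * (om ^ 2 - om + 1) * hs * (N 6 om w 1 - N 6 om w 4)
  have hr : ∀ r : ZMod 6, r = 0 ∨ r = 1 ∨ r = 2 ∨ r = 3 ∨ r = 4 ∨ r = 5 := by decide
  rcases hr r with h | h | h | h | h | h <;> subst h
  · exact A0
  · exact A1
  · exact A2
  · exact A0.symm
  · exact A1.symm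
  · exact A2.symm


/-- the bound for integer families covering all residues mod 3 -/
lemma upper_int (q : ℕ) (hq : 1 ≤ q) (F : Finset (Fin q → ℤ))
    (h : ∀ u ∈ F, ∀ v ∈ F, u ≠ v → (∃ j, (u j - v j) % 3 = 0) ∧ (∃ j, (u j - v j) % 3 = 1) ∧
      (∃ j, (u j - v j) % 3 = 2)) : F.card ≤ B q := by
  refine bound 6 om om_ne om_conj F _ _ (gap q hq) ?_
  intro u hu v hv huv
  obtain ⟨h0, h1, h2⟩ := h u hu v hv huv
  exact key _ h0 h1 h2 _

/-- lift of a vector over `ℤ/3` -/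
def lft {q : ℕ} (u : Fin q → ZMod 3) : Fin q → ℤ := fun j => ((u j).val : ℤ)

lemma lft_inj {q : ℕ} : Function.Injective (lft (q := q)) := by
  intro u v h
  funext j
  have h1 := congrFun h j
  simp only [lft] at h1
  have h2 : (u j).val = (v j).val := by exact_mod_cast h1
  exact ZMod.val_injective 3 h2

lemma lft_sub {q : ℕ} (u v : Fin q → ZMod 3) (j : Fin q) (a : ℤ)
    (h : u j - v j = ((a : ℤ) : ZMod 3)) : (lft u j - lft v j) % 3 = a % 3 := by
  have h1 : ((lft u j - lft v j : ℤ) : ZMod 3) = ((a : ℤ) : ZMod 3) := by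
    rw [← h]
    simp only [lft]
    push_cast
    rw [ZMod.natCast_zmod_val, ZMod.natCast_zmod_val]
  exact (ZMod.intCast_eq_intCast_iff' _ _ 3).1 h1

lemma upper_z3 (q : ℕ) (hq : 1 ≤ q) (G : Set (Fin q → ZMod 3)) (hG : Z3Covering G) :
    G.encard ≤ (B q : ℕ) := by
  refine encard_le_of G _ fun T hT => ?_
  have hc : (T.image lft).card = T.card := Finset.card_image_of_injective T lft_inj
  rw [← hc]
  refine upper_int q hq _ ?_
  intro u hu v hv huv
  obtain ⟨u', hu', rfl⟩ := Finset.mem_image.1 hu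
  obtain ⟨v', hv', rfl⟩ := Finset.mem_image.1 hv
  have hne : u' ≠ v' := fun e => huv (by rw [e])
  have H := hG u' (hT hu') v' (hT hv') hne
  obtain ⟨j0, h0⟩ := H 0
  obtain ⟨j1, h1⟩ := H 1
  obtain ⟨j2, h2⟩ := H 2
  exact ⟨⟨j0, lft_sub u' v' j0 0 (by rw [h0]; norm_num)⟩,
    ⟨j1, lft_sub u' v' j1 1 (by rw [h1]; norm_num)⟩,
    ⟨j2, lft_sub u' v' j2 2 (by rw [h2]; norm_num)⟩⟩

/-- reduction mod 3 -/
def red {q : ℕ} (u : Fin q → ℤ) : Fin q → ZMod 3 := fun j => (u j : ZMod 3)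

lemma red_inj {q : ℕ} (F : Set (Fin q → ℤ)) (hF : Covering F) : Set.InjOn red F := by
  intro u hu v hv h
  by_contra hne
  obtain ⟨j, hj⟩ := hF u hu v hv hne 1 (by simp)
  have h1 := congrFun h j
  simp only [red] at h1
  have h2 : ((u j - v j : ℤ) : ZMod 3) = 0 := by
    push_cast
    rw [h1, sub_self]
  rw [hj] at h2
  exact absurd h2 (by decide)

lemma red_cov {q : ℕ} (F : Set (Fin q → ℤ)) (hF : Covering F) : Z3Covering (red '' F) := by
  rintro _ ⟨u, hu, rfl⟩ _ ⟨v, hv, rfl⟩ hne a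
  have huv : u ≠ v := fun e => hne (by rw [e])
  have ha : ∀ a : ZMod 3, a = ((-1 : ℤ) : ZMod 3) ∨ a = ((0 : ℤ) : ZMod 3) ∨
      a = ((1 : ℤ) : ZMod 3) := by decide
  have H : ∀ b ∈ ({-1, 0, 1} : Set ℤ), ∃ j, red u j - red v j = (b : ZMod 3) := by
    intro b hb
    obtain ⟨j, hj⟩ := hF u hu v hv huv b hb
    refine ⟨j, ?_⟩
    simp only [red]
    rw [← hj]
    push_cast
    rfl
  rcases ha a with h | h | h <;> rw [h]
  · exact H (-1) (by simp)
  · exact H 0 (by simp)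
  · exact H 1 (by simp)

lemma red_encard {q : ℕ} (F : Set (Fin q → ℤ)) (hF : Covering F) :
    (red '' F).encard = F.encard := (red_inj F hF).encard_image

lemma upper_z (q : ℕ) (hq : 1 ≤ q) (F : Set (Fin q → ℤ)) (hF : Covering F) :
    F.encard ≤ (B q : ℕ) := by
  rw [← red_encard F hF]
  exact upper_z3 q hq _ (red_cov F hF)

lemma lower_z (q k : ℕ) (hk : 2 * k < q) : Covering (layer q k) := by
  intro u hu v hv huv a ha
  obtain ⟨h1, h2⟩ := layer_pm q k u hu v hv huv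
  have h0 := layer_zero q k hk u hu v hv
  simp only [Set.mem_insert_iff, Set.mem_singleton_iff] at ha
  rcases ha with rfl | rfl | rfl
  · exact h2
  · exact h0
  · exact h1

lemma B_small (q : ℕ) (h1 : 1 ≤ q) (h9 : q ≤ 9) : B q = q.choose ((q - 1) / 2) := by
  interval_cases q <;> decide

/-- both parities at once -/
lemma B_le (q : ℕ) (hq : 1 ≤ q) : 6 * B q ≤ 2 ^ q + 4 * 3 ^ (q / 2) := by
  rcases Nat.even_or_odd' q with ⟨m, hm | hm⟩
  · subst hm
    have := B_even m (by omega)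
    have e : 2 * m / 2 = m := by omega
    rw [e]
    omega
  · subst hm
    have := B_odd m
    have e : (2 * m + 1) / 2 = m := by omega
    have h3 : 1 ≤ 3 ^ m := Nat.one_le_pow _ _ (by norm_num)
    rw [e]
    rw [pow_succ 3 m] at this
    omega

lemma B_asymp (ε : ℝ) (hε : 0 < ε) : ∃ Q : ℕ, 1 ≤ Q ∧ ∀ q ≥ Q,
    (B q : ℝ) ≤ (1 / 6 + ε) * 2 ^ q := by
  obtain ⟨n, hn⟩ := exists_pow_lt_of_lt_one hε (show (3 / 4 : ℝ) < 1 by norm_num)
  refine ⟨2 * n + 1, by omega, fun q hq => ?_⟩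
  have h1 : (6 : ℝ) * B q ≤ 2 ^ q + 4 * 3 ^ (q / 2) := by
    exact_mod_cast B_le q (by omega)
  have h2 : (3 : ℝ) ^ (q / 2) ≤ ε * 2 ^ q := by
    have e1 : (3 : ℝ) ^ (q / 2) = (3 / 4) ^ (q / 2) * 4 ^ (q / 2) := by
      rw [← mul_pow]; norm_num
    have e2 : (4 : ℝ) ^ (q / 2) ≤ 2 ^ q := by
      have : (4 : ℝ) ^ (q / 2) = 2 ^ (2 * (q / 2)) := by rw [pow_mul]; norm_num
      rw [this]
      exact pow_le_pow_right₀ (by norm_num) (by omega)
    have e3 : (3 / 4 : ℝ) ^ (q / 2) ≤ (3 / 4) ^ n :=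
      pow_le_pow_of_le_one (by norm_num) (by norm_num) (by omega)
    rw [e1]
    exact mul_le_mul (e3.trans hn.le) e2 (by positivity) hε.le
  nlinarith [h1, h2, pow_pos (show (0 : ℝ) < 2 by norm_num) q]

/-- **Main theorem.** -/
theorem result :
    -- (1) upper bounds for `R(3,q)`, odd and even `q`
    (∀ (m : ℕ) (G : Set (Fin (2 * m + 1) → ZMod 3)), Z3Covering G →
      G.encard ≤ ((2 ^ (2 * m + 1) + 3 ^ (m + 1) + 1) / 6 : ℕ)) ∧
    (∀ m : ℕ, 1 ≤ m → ∀ G : Set (Fin (2 * m) → ZMod 3), Z3Covering G →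
      G.encard ≤ ((2 ^ (2 * m) + 3 ^ m - 1) / 6 : ℕ)) ∧
    -- (2) the same upper bounds for `F(q)`
    (∀ (m : ℕ) (F : Set (Fin (2 * m + 1) → ℤ)), Covering F →
      F.encard ≤ ((2 ^ (2 * m + 1) + 3 ^ (m + 1) + 1) / 6 : ℕ)) ∧
    (∀ m : ℕ, 1 ≤ m → ∀ F : Set (Fin (2 * m) → ℤ), Covering F →
      F.encard ≤ ((2 ^ (2 * m) + 3 ^ m - 1) / 6 : ℕ)) ∧
    -- (3) asymptotically, both are at most `(1/6 + o(1)) 2^q`
    (∀ ε : ℝ, 0 < ε → ∃ Q : ℕ, ∀ q ≥ Q,
      (∀ G : Set (Fin q → ZMod 3), Z3Covering G → G.Finite ∧ (G.ncard : ℝ) ≤ (1 / 6 + ε) * 2 ^ q) ∧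
      (∀ F : Set (Fin q → ℤ), Covering F → F.Finite ∧ (F.ncard : ℝ) ≤ (1 / 6 + ε) * 2 ^ q)) ∧
    -- (4) a lower bound for all `q`
    (∀ q : ℕ, 1 ≤ q → ∃ F : Set (Fin q → ℤ), Covering F ∧
      F.encard = (q.choose ((q - 1) / 2) : ℕ)) ∧
    -- (5) exact values for `1 ≤ q ≤ 9`
    (∀ q : ℕ, 1 ≤ q → q ≤ 9 →
      IsGreatest {n : ℕ∞ | ∃ F : Set (Fin q → ℤ), Covering F ∧ F.encard = n}
        (q.choose ((q - 1) / 2) : ℕ) ∧
      IsGreatest {n : ℕ∞ | ∃ G : Set (Fin q → ZMod 3), Z3Covering G ∧ G.encard = n}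
        (q.choose ((q - 1) / 2) : ℕ)) := by
  have hodd : ∀ m, B (2 * m + 1) = (2 ^ (2 * m + 1) + 3 ^ (m + 1) + 1) / 6 := by
    intro m
    have := B_odd m
    omega
  have heven : ∀ m, 1 ≤ m → B (2 * m) = (2 ^ (2 * m) + 3 ^ m - 1) / 6 := by
    intro m hm
    have := B_even m hm
    omega
  have hfin : ∀ {α : Type} (G : Set α) (b : ℕ) (x : ℝ), G.encard ≤ (b : ℕ) → (b : ℝ) ≤ x →
      G.Finite ∧ (G.ncard : ℝ) ≤ x := by
    intro α G b x h1 h2
    have hf : G.Finite := Set.finite_of_encard_le_coe h1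
    refine ⟨hf, ?_⟩
    rw [← hf.cast_ncard_eq] at h1
    have h3 : G.ncard ≤ b := by exact_mod_cast h1
    have h4 : (G.ncard : ℝ) ≤ b := by exact_mod_cast h3
    exact h4.trans h2
  refine ⟨?_, ?_, ?_, ?_, ?_, ?_, ?_⟩
  · intro m G hG
    rw [← hodd m]
    exact upper_z3 _ (by omega) G hG
  · intro m hm G hG
    rw [← heven m hm]
    exact upper_z3 _ (by omega) G hG
  · intro m F hF
    rw [← hodd m]
    exact upper_z _ (by omega) F hF
  · intro m hm F hF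
    rw [← heven m hm]
    exact upper_z _ (by omega) F hF
  · intro ε hε
    obtain ⟨Q, hQ1, hQ⟩ := B_asymp ε hε
    refine ⟨Q, fun q hq => ⟨fun G hG => ?_, fun F hF => ?_⟩⟩
    · exact hfin G _ _ (upper_z3 q (by omega) G hG) (hQ q hq)
    · exact hfin F _ _ (upper_z q (by omega) F hF) (hQ q hq)
  · intro q hq
    exact ⟨layer q ((q - 1) / 2), lower_z q _ (by omega), layer_card q _⟩
  · intro q h1 h9
    have hcov : Covering (layer q ((q - 1) / 2)) := lower_z q _ (by omega)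
    refine ⟨⟨⟨_, hcov, layer_card q _⟩, ?_⟩,
      ⟨⟨_, red_cov _ hcov, (red_encard _ hcov).trans (layer_card q _)⟩, ?_⟩⟩
    · rintro n ⟨F, hF, rfl⟩
      rw [← B_small q h1 h9]
      exact upper_z q h1 F hF
    · rintro n ⟨G, hG, rfl⟩
      rw [← B_small q h1 h9]
      exact upper_z3 q h1 G hG

end Pool.Agent.Results.MP_f4ab27_co.SixthBound
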